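import Pool.Agent.MP_d9582c_gt.H34.Stmts

/-!
From estimates on the heat traces to the convergence of the torsions.
-/

open scoped ENNReal Topology
open MeasureTheory Set Filter Asymptotics

noncomputable section

namespace Pool.Agent.MP_d9582c_gt.H44

/-- Conversion of a bound on the lower integral into a bound on the integral. -/
lemma tail_le {θ : ℝ → ℝ} {ε T η : ℝ} (hε : 0 < ε) (hT : ε ≤ T) (hη : 0 ≤ η)
    (hint : IntegrableOn (fun t => θ t / t) (Ioi ε)) (h0 : ∀ t > 0, 0 ≤ θ t)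
    (h : ∫⁻ t in Ioi T, ENNReal.ofReal (θ t / t) ≤ ENNReal.ofReal η) :
    ∫ t in Ioi T, θ t / t ≤ η := by
  have hi : IntegrableOn (fun t => θ t / t) (Ioi T) := hint.mono_set (Ioi_subset_Ioi hT)
  rw [← ofReal_integral_eq_lintegral_ofReal hi] at h
  · exact (ENNReal.ofReal_le_ofReal_iff hη).1 h
  · filter_upwards [ae_restrict_mem measurableSet_Ioi] with t ht
    have : 0 < t := lt_of_lt_of_le hε (hT.trans (le_of_lt ht))
    exact div_nonneg (h0 t this) this.le

lemma tail_nonneg {θ : ℝ → ℝ} {T : ℝ} (hT : 0 < T) (h0 : ∀ t > 0, 0 ≤ θ t) :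
    0 ≤ ∫ t in Ioi T, θ t / t :=
  setIntegral_nonneg measurableSet_Ioi fun t ht =>
    div_nonneg (h0 t (hT.trans ht)) (hT.trans ht).le

/-- An antitone nonnegative function is controlled by its tail integral. -/
lemma val_le_tail {θ : ℝ → ℝ} {ε T : ℝ} (hε : 0 < ε) (hT : ε ≤ T)
    (hint : IntegrableOn (fun t => θ t / t) (Ioi ε)) (h0 : ∀ t > 0, 0 ≤ θ t)
    (ha : AntitoneOn θ (Ioi 0)) : θ (2 * T) ≤ 2 * ∫ t in Ioi T, θ t / t := by
  have hT0 : 0 < T := hε.trans_le hT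
  have hi : IntegrableOn (fun t => θ t / t) (Ioi T) := hint.mono_set (Ioi_subset_Ioi hT)
  have h1 : θ (2 * T) / (2 * T) * (volume : Measure ℝ).real (Ioc T (2 * T)) ≤
      ∫ t in Ioc T (2 * T), θ t / t := by
    refine setIntegral_ge_of_const_le_real measurableSet_Ioc (by simp) (fun t ht => ?_)
      (hi.mono_set Ioc_subset_Ioi_self)
    have ht0 : 0 < t := hT0.trans ht.1
    have h2 : θ (2 * T) ≤ θ t := ha ht0 (by simp only [mem_Ioi]; linarith) ht.2
    exact div_le_div₀ (h0 t ht0) h2 ht0 ht.2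
  have h2 : ∫ t in Ioc T (2 * T), θ t / t ≤ ∫ t in Ioi T, θ t / t := by
    refine setIntegral_mono_set hi ?_ (Eventually.of_forall Ioc_subset_Ioi_self)
    filter_upwards [ae_restrict_mem measurableSet_Ioi] with t ht
    exact div_nonneg (h0 t (hT0.trans ht)) (hT0.trans ht).le
  have h3 : (volume : Measure ℝ).real (Ioc T (2 * T)) = T := by
    rw [Real.volume_real_Ioc_of_le (by linarith)]; ring
  rw [h3] at h1
  have h4 : θ (2 * T) / (2 * T) * T = θ (2 * T) / 2 := by field_simp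
  linarith

section

variable {ε : ℝ} {tr : ℝ → ℝ} {b : ℝ} {tr' : ℕ → ℝ → ℝ} {b' : ℕ → ℝ}

/-- A common large time for which all the tails are small. -/
lemma exists_time (hε : 0 < ε)
    (hint' : ∀ i, IntegrableOn (fun t => (tr' i t - b' i) / t) (Ioi ε))
    (hb' : ∀ i, ∀ t > 0, b' i ≤ tr' i t)
    (htail : ∀ η > 0, ∀ᶠ T in atTop, ∀ᶠ i in atTop,
      ∫⁻ t in Ioi T, ENNReal.ofReal ((tr' i t - b' i) / t) ≤ ENNReal.ofReal η)
    {η : ℝ} (hη : 0 < η) :
    ∃ T, ε ≤ T ∧ ∫ t in Ioi T, (tr t - b) / t ≤ η ∧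
      ∀ᶠ i in atTop, ∫ t in Ioi T, (tr' i t - b' i) / t ≤ η := by
  have h1 : Tendsto (fun T : ℝ => ∫ t in Ioi T, (tr t - b) / t) atTop (𝓝 0) :=
    tendsto_integral_Ioi_zero tendsto_id
  obtain ⟨T, hT1, hT2, hT3⟩ := ((eventually_ge_atTop ε).and
    ((h1.eventually (eventually_le_nhds hη)).and (htail η hη))).exists
  refine ⟨T, hT1, hT2, hT3.mono fun i hi => ?_⟩
  exact tail_le (θ := fun t => tr' i t - b' i) hε hT1 hη.le (hint' i)
    (fun t ht => sub_nonneg.2 (hb' i t ht)) hi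

lemma tendsto_betti (hε : 0 < ε)
    (hint : IntegrableOn (fun t => (tr t - b) / t) (Ioi ε))
    (hint' : ∀ i, IntegrableOn (fun t => (tr' i t - b' i) / t) (Ioi ε))
    (ha : AntitoneOn tr (Ioi 0)) (hb : ∀ t > 0, b ≤ tr t)
    (ha' : ∀ i, AntitoneOn (tr' i) (Ioi 0)) (hb' : ∀ i, ∀ t > 0, b' i ≤ tr' i t)
    (hlim : ∀ t > 0, Tendsto (fun i => tr' i t) atTop (𝓝 (tr t)))
    (htail : ∀ η > 0, ∀ᶠ T in atTop, ∀ᶠ i in atTop,
      ∫⁻ t in Ioi T, ENNReal.ofReal ((tr' i t - b' i) / t) ≤ ENNReal.ofReal η) :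
    Tendsto b' atTop (𝓝 b) := by
  rw [Metric.tendsto_nhds]
  intro δ hδ
  obtain ⟨T, hT, h1, h2⟩ := exists_time (tr := tr) (b := b) hε hint' hb' htail
    (η := δ / 8) (by positivity)
  have hT0 : 0 < 2 * T := by linarith
  have h3 := val_le_tail (θ := fun t => tr t - b) hε hT hint
    (fun t ht => sub_nonneg.2 (hb t ht)) (fun x hx y hy hxy => sub_le_sub_right (ha hx hy hxy) _)
  have h4 := Metric.tendsto_nhds.1 (hlim _ hT0) (δ / 4) (by positivity)
  filter_upwards [h2, h4] with i hi2 hi4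
  have h5 := val_le_tail (θ := fun t => tr' i t - b' i) hε hT (hint' i)
    (fun t ht => sub_nonneg.2 (hb' i t ht))
    (fun x hx y hy hxy => sub_le_sub_right (ha' i hx hy hxy) _)
  have h6 := hb _ hT0
  have h7 := hb' i _ hT0
  rw [Real.dist_eq, abs_lt] at hi4 ⊢
  beta_reduce at h3 h5
  constructor <;> linarith [hi4.1, hi4.2]

lemma tendsto_large (hε : 0 < ε)
    (hint : IntegrableOn (fun t => (tr t - b) / t) (Ioi ε))
    (hint' : ∀ i, IntegrableOn (fun t => (tr' i t - b' i) / t) (Ioi ε))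
    (hb : ∀ t > 0, b ≤ tr t)
    (ha' : ∀ i, AntitoneOn (tr' i) (Ioi 0)) (hb0' : ∀ i, 0 ≤ b' i)
    (hb' : ∀ i, ∀ t > 0, b' i ≤ tr' i t)
    (hlim : ∀ t > 0, Tendsto (fun i => tr' i t) atTop (𝓝 (tr t)))
    (hbb : Tendsto b' atTop (𝓝 b))
    (htail : ∀ η > 0, ∀ᶠ T in atTop, ∀ᶠ i in atTop,
      ∫⁻ t in Ioi T, ENNReal.ofReal ((tr' i t - b' i) / t) ≤ ENNReal.ofReal η) :
    Tendsto (fun i => ∫ t in Ioi ε, (tr' i t - b' i) / t) atTop
      (𝓝 (∫ t in Ioi ε, (tr t - b) / t)) := by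
  rw [Metric.tendsto_nhds]
  intro δ hδ
  obtain ⟨T, hT, h1, h2⟩ := exists_time (tr := tr) (b := b) hε hint' hb' htail
    (η := δ / 4) (by positivity)
  have hT0 : 0 < T := hε.trans_le hT
  have hmid : Tendsto (fun i => ∫ t in Ioc ε T, (tr' i t - b' i) / t) atTop
      (𝓝 (∫ t in Ioc ε T, (tr t - b) / t)) := by
    refine tendsto_integral_filter_of_dominated_convergence (fun _ => (tr ε + 1) / ε)
      (Eventually.of_forall fun i =>
        ((hint' i).mono_set Ioc_subset_Ioi_self).aestronglyMeasurable) ?_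
      (integrableOn_const (by simp)) ?_
    · filter_upwards [(hlim ε hε).eventually (eventually_le_nhds (lt_add_one (tr ε)))] with i hi
      filter_upwards [ae_restrict_mem measurableSet_Ioc] with t ht
      have ht0 : 0 < t := hε.trans ht.1
      have h3 := hb' i t ht0
      have h4 : tr' i t ≤ tr' i ε := ha' i hε ht0 ht.1.le
      have h5 := hb0' i
      rw [Real.norm_eq_abs, abs_of_nonneg (div_nonneg (by linarith) ht0.le)]
      exact div_le_div₀ (by linarith) (by linarith) hε ht.1.le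
    · filter_upwards [ae_restrict_mem measurableSet_Ioc] with t ht
      exact ((hlim t (hε.trans ht.1)).sub hbb).div_const t
  have hsplit : ∀ f : ℝ → ℝ, IntegrableOn f (Ioi ε) →
      ∫ t in Ioi ε, f t = (∫ t in Ioc ε T, f t) + ∫ t in Ioi T, f t := fun f hf => by
    rw [← Ioc_union_Ioi_eq_Ioi hT, setIntegral_union Ioc_disjoint_Ioi_same measurableSet_Ioi
      (hf.mono_set Ioc_subset_Ioi_self) (hf.mono_set (Ioi_subset_Ioi hT))]
  have h3 := tail_nonneg (θ := fun t => tr t - b) hT0 fun t ht => sub_nonneg.2 (hb t ht)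
  filter_upwards [h2, Metric.tendsto_nhds.1 hmid (δ / 2) (by positivity)] with i hi2 hi3
  have h4 := tail_nonneg (θ := fun t => tr' i t - b' i) hT0
    fun t ht => sub_nonneg.2 (hb' i t ht)
  rw [hsplit _ hint, hsplit _ (hint' i)]
  rw [Real.dist_eq, abs_lt] at hi3 ⊢
  beta_reduce at h3 h4
  constructor <;> linarith [hi3.1, hi3.2]

end

/-- The truncated Mellin transform of a function of linear size is holomorphic on `re s > -1`. -/
lemma differentiableAt_trunc {D : ℝ → ℝ} {ε C : ℝ}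
    (hm : AEStronglyMeasurable D (volume.restrict (Ioi 0)))
    (hD : ∀ t ∈ Ioc 0 ε, |D t| ≤ C * t) {s : ℂ} (hs : -1 < s.re) :
    DifferentiableAt ℂ (fun s : ℂ => ∫ t in Ioc 0 ε, (t : ℂ) ^ (s - 1) * D t) s := by
  set f : ℝ → ℂ := (Ioc 0 ε).indicator fun t => (D t : ℂ) with hf
  have h1 : (fun s : ℂ => ∫ t in Ioc 0 ε, (t : ℂ) ^ (s - 1) * D t) = mellin f := by
    funext s
    have : (fun t : ℝ => (t : ℂ) ^ (s - 1) • f t) =
        (Ioc 0 ε).indicator fun t => (t : ℂ) ^ (s - 1) * D t := by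
      funext t
      by_cases ht : t ∈ Ioc 0 ε <;> simp [hf, ht]
    rw [mellin, this, setIntegral_indicator measurableSet_Ioc,
      inter_eq_right.2 Ioc_subset_Ioi_self]
  have hi : IntegrableOn (fun t => (D t : ℂ)) (Ioc 0 ε) := by
    refine Integrable.mono' (g := fun _ => |C| * ε) (integrableOn_const (by simp))
      (Complex.continuous_ofReal.comp_aestronglyMeasurable
        (hm.mono_measure (Measure.restrict_mono Ioc_subset_Ioi_self le_rfl))) ?_
    filter_upwards [ae_restrict_mem measurableSet_Ioc] with t ht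
    rw [Complex.norm_real, Real.norm_eq_abs]
    exact (hD t ht).trans (mul_le_mul (le_abs_self C) ht.2 ht.1.le (abs_nonneg C))
  rw [h1]
  refine mellin_differentiableAt_of_isBigO_rpow (a := s.re + 1) (b := -1)
    (((integrable_indicator_iff measurableSet_Ioc).2 hi).locallyIntegrable.locallyIntegrableOn _) ?_
    (lt_add_one _) ?_ hs
  · refine (isBigO_zero _ _).congr' ?_ EventuallyEq.rfl
    filter_upwards [eventually_gt_atTop ε] with t ht
    have : t ∉ Ioc 0 ε := fun h => absurd h.2 (not_le.2 ht)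
    simp [hf, this]
  · refine IsBigO.of_bound |C| ?_
    filter_upwards [self_mem_nhdsWithin] with t ht
    have ht0 : 0 < t := ht
    simp only [neg_neg, Real.rpow_one, Real.norm_eq_abs, abs_of_pos ht0]
    by_cases h : t ∈ Ioc 0 ε
    · simp only [hf, indicator_of_mem h, Complex.norm_real, Real.norm_eq_abs]
      exact (hD t h).trans (mul_le_mul_of_nonneg_right (le_abs_self C) ht0.le)
    · simp only [hf, indicator_of_notMem h, norm_zero]
      positivity

/-- The difference of the derivatives at `0` of two zeta functions. -/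
lemma deriv_sub_eq {ε : ℝ} (hε : 0 < ε) {tr tr' : ℝ → ℝ} {b b' c c' C : ℝ} {ζ ζ' : ℂ → ℂ}
    (hm : AEStronglyMeasurable (fun t => tr' t - tr t) (volume.restrict (Ioi 0)))
    (hD : ∀ t ∈ Ioc 0 ε, |tr' t - tr t| ≤ C * t)
    (h1 : MeromorphicOn ζ univ) (h2 : AnalyticAt ℂ ζ 0)
    (h3 : ∀ s : ℂ, c < s.re →
      IntegrableOn (fun t : ℝ => (t : ℂ) ^ (s - 1) * (tr t - b : ℝ)) (Ioc 0 ε) ∧
      ζ s = (Complex.Gamma s)⁻¹ * ∫ t in Ioc 0 ε, (t : ℂ) ^ (s - 1) * (tr t - b : ℝ))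
    (h1' : MeromorphicOn ζ' univ) (h2' : AnalyticAt ℂ ζ' 0)
    (h3' : ∀ s : ℂ, c' < s.re →
      IntegrableOn (fun t : ℝ => (t : ℂ) ^ (s - 1) * (tr' t - b' : ℝ)) (Ioc 0 ε) ∧
      ζ' s = (Complex.Gamma s)⁻¹ * ∫ t in Ioc 0 ε, (t : ℂ) ^ (s - 1) * (tr' t - b' : ℝ)) :
    deriv ζ' 0 = deriv ζ 0 +
      deriv (fun s : ℂ => (Complex.Gamma s)⁻¹) 0 *
        ((∫ t in Ioc 0 ε, (tr' t - tr t) / t : ℝ) : ℂ) -
      (b' - b : ℝ) * deriv (fun s : ℂ => (ε : ℂ) ^ s * (Complex.Gamma (s + 1))⁻¹) 0 := by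
  set F : ℂ → ℂ := fun s => ∫ t in Ioc 0 ε, (t : ℂ) ^ (s - 1) * (tr' t - tr t : ℝ) with hF
  set k : ℂ → ℂ := fun s => (ε : ℂ) ^ s * (Complex.Gamma (s + 1))⁻¹ with hk
  set U : Set ℂ := {s | -1 < s.re} with hU
  have hUo : IsOpen U := isOpen_lt continuous_const Complex.continuous_re
  have h0U : (0 : ℂ) ∈ U := by simp [hU]
  have hFd : ∀ s ∈ U, DifferentiableAt ℂ F s := fun s hs =>
    differentiableAt_trunc (D := fun t => tr' t - tr t) hm hD hs
  have hεC : (ε : ℂ) ≠ 0 := by exact_mod_cast hε.ne'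
  have hkd : Differentiable ℂ k := fun s =>
    (differentiableAt_id.const_cpow (Or.inl hεC)).mul
      (DifferentiableAt.comp (g := fun s : ℂ => (Complex.Gamma s)⁻¹) (f := fun s : ℂ => s + 1) s
        (Complex.differentiable_one_div_Gamma (s + 1)) (differentiableAt_id.add_const 1))
  set g : ℂ → ℂ := fun s => (Complex.Gamma s)⁻¹ * F s - (b' - b : ℝ) * k s with hg
  have hgd : DifferentiableOn ℂ g U := fun s hs =>
    (((Complex.differentiable_one_div_Gamma s).mul (hFd s hs)).sub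
      ((hkd s).const_mul _)).differentiableWithinAt
  have hga : AnalyticOnNhd ℂ g U := hgd.analyticOnNhd hUo
  have hmer : MeromorphicOn (ζ' - (ζ + g)) U := fun s hs =>
    (h1' s trivial).sub ((h1 s trivial).add (hga s hs).meromorphicAt)
  set a : ℝ := max (max c c') 0 with ha
  have hzero : ∀ s : ℂ, a < s.re → (ζ' - (ζ + g)) s = 0 := by
    intro s hs
    have hc : c < s.re := lt_of_le_of_lt ((le_max_left _ _).trans (le_max_left _ _)) hs
    have hc' : c' < s.re := lt_of_le_of_lt ((le_max_right _ _).trans (le_max_left _ _)) hs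
    have hs0 : 0 < s.re := lt_of_le_of_lt (le_max_right _ _) hs
    have hsne : s ≠ 0 := fun h => by simp [h] at hs0
    have hre : -1 < (s - 1).re := by simp [hs0]
    obtain ⟨i1, e1⟩ := h3 s hc
    obtain ⟨i2, e2⟩ := h3' s hc'
    have i3 : IntegrableOn (fun t : ℝ => (t : ℂ) ^ (s - 1)) (Ioc 0 ε) :=
      (intervalIntegral.intervalIntegrable_cpow' (a := 0) (b := ε) hre).1
    have e3 : ∫ t in Ioc 0 ε, (t : ℂ) ^ (s - 1) = (ε : ℂ) ^ s / s := by
      rw [← intervalIntegral.integral_of_le hε.le, integral_cpow (Or.inl hre)]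
      simp [hsne]
    have e4 : F s = (∫ t in Ioc 0 ε, (t : ℂ) ^ (s - 1) * (tr' t - b' : ℝ)) -
        (∫ t in Ioc 0 ε, (t : ℂ) ^ (s - 1) * (tr t - b : ℝ)) +
        (b' - b : ℝ) * ((ε : ℂ) ^ s / s) := by
      have i4 : IntegrableOn (fun t : ℝ => (t : ℂ) ^ (s - 1) * (tr' t - b' : ℝ) -
          (t : ℂ) ^ (s - 1) * (tr t - b : ℝ)) (Ioc 0 ε) := i2.sub i1
      rw [← e3, ← integral_const_mul, ← integral_sub i2 i1,
        ← integral_add i4 (i3.const_mul _)]
      refine integral_congr_ae (Eventually.of_forall fun t => ?_)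
      push_cast
      ring
    simp only [Pi.sub_apply, Pi.add_apply, hg, hk, e1, e2, e4, Complex.Gamma_add_one s hsne]
    field_simp
    ring
  have hy : ((a + 1 : ℝ) : ℂ) ∈ U := by
    have : 0 ≤ a := le_max_right _ _
    simp only [hU, mem_ofPred_eq, Complex.ofReal_re]
    linarith
  have htop : meromorphicOrderAt (ζ' - (ζ + g)) 0 = ⊤ := by
    by_contra h
    refine hmer.meromorphicOrderAt_ne_top_of_isPreconnected
      (convex_halfSpace_re_gt (-1)).isPreconnected h0U hy h ?_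
    rw [meromorphicOrderAt_eq_top_iff]
    refine eventually_nhdsWithin_of_eventually_nhds ?_
    filter_upwards [(isOpen_lt continuous_const Complex.continuous_re).mem_nhds
      (show ((a + 1 : ℝ) : ℂ) ∈ {s : ℂ | a < s.re} by simp)] with s hs using hzero s hs
  have heq : ζ' =ᶠ[𝓝 0] ζ + g := by
    refine (h2'.continuousAt.eventuallyEq_nhds_iff_eventuallyEq_nhdsNE
      (h2.add (hga 0 h0U)).continuousAt).1 ?_
    filter_upwards [meromorphicOrderAt_eq_top_iff.1 htop] with s hs using sub_eq_zero.1 hs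
  have hF0 : F 0 = ((∫ t in Ioc 0 ε, (tr' t - tr t) / t : ℝ) : ℂ) := by
    rw [← integral_complex_ofReal]
    refine integral_congr_ae (Eventually.of_forall fun t => ?_)
    simp only [zero_sub, Complex.cpow_neg_one]
    push_cast
    ring
  have hdg : HasDerivAt g (deriv (fun s : ℂ => (Complex.Gamma s)⁻¹) 0 * F 0 +
      (Complex.Gamma 0)⁻¹ * deriv F 0 - (b' - b : ℝ) * deriv k 0) 0 :=
    ((Complex.differentiable_one_div_Gamma 0).hasDerivAt.mul (hFd 0 h0U).hasDerivAt).sub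
      ((hkd 0).hasDerivAt.const_mul _)
  rw [heq.deriv_eq, (h2.differentiableAt.hasDerivAt.add hdg).deriv, hF0, Complex.Gamma_zero]
  ring

lemma tendsto_small {ε : ℝ} (hε : 0 < ε) {tr : ℝ → ℝ} {tr' : ℕ → ℝ → ℝ} {b c : ℝ}
    {b' c' : ℕ → ℝ} {ζ : ℂ → ℂ} {ζ' : ℕ → ℂ → ℂ}
    (ha : AntitoneOn tr (Ioi 0)) (h0 : ∀ t > 0, 0 ≤ tr t)
    (ha' : ∀ i, AntitoneOn (tr' i) (Ioi 0)) (h0' : ∀ i, ∀ t > 0, 0 ≤ tr' i t)
    (hC : ∃ C : ℝ, ∀ᶠ i in atTop, ∀ t ∈ Ioc (0 : ℝ) 1, |tr' i t - tr t| ≤ C * t)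
    (hlim : ∀ t > 0, Tendsto (fun i => tr' i t) atTop (𝓝 (tr t)))
    (hbb : Tendsto b' atTop (𝓝 b))
    (h1 : MeromorphicOn ζ univ) (h2 : AnalyticAt ℂ ζ 0)
    (h3 : ∀ s : ℂ, c < s.re →
      IntegrableOn (fun t : ℝ => (t : ℂ) ^ (s - 1) * (tr t - b : ℝ)) (Ioc 0 ε) ∧
      ζ s = (Complex.Gamma s)⁻¹ * ∫ t in Ioc 0 ε, (t : ℂ) ^ (s - 1) * (tr t - b : ℝ))
    (h1' : ∀ i, MeromorphicOn (ζ' i) univ) (h2' : ∀ i, AnalyticAt ℂ (ζ' i) 0)
    (h3' : ∀ i, ∀ s : ℂ, c' i < s.re →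
      IntegrableOn (fun t : ℝ => (t : ℂ) ^ (s - 1) * (tr' i t - b' i : ℝ)) (Ioc 0 ε) ∧
      ζ' i s = (Complex.Gamma s)⁻¹ *
        ∫ t in Ioc 0 ε, (t : ℂ) ^ (s - 1) * (tr' i t - b' i : ℝ)) :
    Tendsto (fun i => deriv (ζ' i) 0) atTop (𝓝 (deriv ζ 0)) := by
  obtain ⟨C, hC⟩ := hC
  have hm : ∀ i, AEMeasurable (fun t => tr' i t - tr t) (volume.restrict (Ioi 0)) := fun i =>
    (aemeasurable_restrict_of_antitoneOn measurableSet_Ioi (ha' i)).sub
      (aemeasurable_restrict_of_antitoneOn measurableSet_Ioi ha)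
  have hD : ∀ᶠ i in atTop, ∀ t ∈ Ioc 0 ε, |tr' i t - tr t| ≤ (|C| + tr 1) * t := by
    filter_upwards [hC] with i hi t ht
    have e1 := h0 1 one_pos
    have e2 := le_abs_self C
    have e3 := abs_nonneg C
    rcases le_or_gt t 1 with h | h
    · exact (hi t ⟨ht.1, h⟩).trans (mul_le_mul_of_nonneg_right (by linarith) ht.1.le)
    · have e4 := (abs_le.1 (hi 1 ⟨one_pos, le_rfl⟩)).2
      have e5 : tr t ≤ tr 1 := ha (mem_Ioi.2 one_pos) ht.1 h.le
      have e6 : tr' i t ≤ tr' i 1 := ha' i (mem_Ioi.2 one_pos) ht.1 h.le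
      have e7 := h0 t ht.1
      have e8 := h0' i t ht.1
      have e9 : |C| + tr 1 ≤ (|C| + tr 1) * t := le_mul_of_one_le_right (by linarith) h.le
      rw [abs_le]
      constructor <;> linarith
  have hI : Tendsto (fun i => ∫ t in Ioc 0 ε, (tr' i t - tr t) / t) atTop (𝓝 0) := by
    have := tendsto_integral_filter_of_dominated_convergence (μ := volume.restrict (Ioc 0 ε))
      (l := atTop) (F := fun i t => (tr' i t - tr t) / t) (f := fun _ => 0)
      (fun _ => |C| + tr 1)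
      (Eventually.of_forall fun i => (((hm i).mono_measure
        (Measure.restrict_mono Ioc_subset_Ioi_self le_rfl)).div
          aemeasurable_id').aestronglyMeasurable) ?_ (integrableOn_const (by simp)) ?_
    · simpa using this
    · filter_upwards [hD] with i hi
      filter_upwards [ae_restrict_mem measurableSet_Ioc] with t ht
      rw [Real.norm_eq_abs, abs_div, abs_of_pos ht.1, div_le_iff₀ ht.1]
      exact hi t ht
    · filter_upwards [ae_restrict_mem measurableSet_Ioc] with t ht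
      simpa using ((hlim t ht.1).sub_const (tr t)).div_const t
  have hb0 : Tendsto (fun i => b' i - b) atTop (𝓝 0) := by simpa using hbb.sub_const b
  have hI' := (Complex.continuous_ofReal.tendsto _).comp hI
  have hb0' := (Complex.continuous_ofReal.tendsto _).comp hb0
  have := ((hI'.const_mul (deriv (fun s : ℂ => (Complex.Gamma s)⁻¹) 0)).const_add
    (deriv ζ 0)).sub
      (hb0'.mul_const (deriv (fun s : ℂ => (ε : ℂ) ^ s * (Complex.Gamma (s + 1))⁻¹) 0))
  simp only [Complex.ofReal_zero, mul_zero, add_zero, zero_mul, sub_zero] at this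
  refine this.congr' ?_
  filter_upwards [hD] with i hi
  exact (deriv_sub_eq hε (hm i).aestronglyMeasurable hi h1 h2 h3 (h1' i) (h2' i) (h3' i)).symm

theorem fin : H34.FinStmt := by
  intro n ε hε tr b tr' b' ρ ρ' hρ hρ' hA hA' hC hlim htail
  obtain ⟨ζ, c, hζ, eρ⟩ := hρ
  choose ζ' c' hζ' eρ' using hρ'
  have key : Tendsto (fun i => (ρ' i : ℂ)) atTop (𝓝 (ρ : ℂ)) := by
    rw [eρ]
    simp only [eρ']
    refine Tendsto.const_mul _ (tendsto_finsetSum _ fun p hp => Tendsto.const_mul _ ?_)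
    have hp' : p ≤ n := Nat.lt_succ_iff.1 (Finset.mem_range.1 hp)
    obtain ⟨z1, z2, z3, z4⟩ := hζ p hp'
    obtain ⟨a1, a2, a3⟩ := hA p hp'
    have hbb : Tendsto (fun i => b' i p) atTop (𝓝 (b p)) :=
      tendsto_betti (tr := tr p) (tr' := fun i => tr' i p) hε z4 (fun i => (hζ' i p hp').2.2.2)
        a1 a3 (fun i => (hA' i p hp').1) (fun i => (hA' i p hp').2.2) (hlim p hp') (htail p hp')
    refine Tendsto.add ?_ ((Complex.continuous_ofReal.tendsto _).comp ?_)
    · exact tendsto_small (tr := tr p) (tr' := fun i => tr' i p) (ζ' := fun i => ζ' i p) hε a1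
        (fun t ht => a2.trans (a3 t ht)) (fun i => (hA' i p hp').1)
        (fun i t ht => (hA' i p hp').2.1.trans ((hA' i p hp').2.2 t ht)) (hC p hp') (hlim p hp')
        hbb z1 z2 z3 (fun i => (hζ' i p hp').1) (fun i => (hζ' i p hp').2.1)
        (fun i => (hζ' i p hp').2.2.1)
    · exact tendsto_large (tr := tr p) (tr' := fun i => tr' i p) hε z4
        (fun i => (hζ' i p hp').2.2.2) a3 (fun i => (hA' i p hp').1)
        (fun i => (hA' i p hp').2.1) (fun i => (hA' i p hp').2.2) (hlim p hp') hbb (htail p hp')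
  simpa [Function.comp_def] using (Complex.continuous_re.tendsto _).comp key

end Pool.Agent.MP_d9582c_gt.H44
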