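import Pool.Agent.MP_d9582c_gt.H34.Stmts2

/-!
A polynomial bound for the heat trace and the Hodge decomposition.
-/

open scoped InnerProductSpace ENNReal Topology
open MeasureTheory Set Filter ContinuousLinearMap

noncomputable section

namespace Pool.Agent.MP_d9582c_gt.H44

open H34

universe u v

section

variable {H K K' : Type*} [NormedAddCommGroup H] [InnerProductSpace ℂ H] [CompleteSpace H]
  [NormedAddCommGroup K] [InnerProductSpace ℂ K] [CompleteSpace K]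
  [NormedAddCommGroup K'] [InnerProductSpace ℂ K'] [CompleteSpace K']

/-- The cut-off function of the energy band number `j`. -/
def cut (j : ℕ) (x : ℝ) : ℝ := max 0 (min 1 ((x * (j + 3) - 1) * (j + 2)))

lemma continuous_cut (j : ℕ) : Continuous (cut j) := by unfold cut; fun_prop

lemma abs_cut_le (j : ℕ) (x : ℝ) : |cut j x| ≤ 1 := by
  rw [cut, abs_of_nonneg (le_max_left _ _)]
  exact max_le zero_le_one (min_le_left _ _)

lemma cut_eq_zero (j : ℕ) {x : ℝ} (hx : x ≤ (1 + ((j : ℝ) + 2))⁻¹) : cut j x = 0 := by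
  have h1 : x * (j + 3) ≤ 1 := by
    rw [← one_div, le_div_iff₀ (by positivity)] at hx
    linarith
  exact max_eq_left ((min_le_right _ _).trans
    (mul_nonpos_of_nonpos_of_nonneg (by linarith) (by positivity)))

lemma cut_eq_one (j : ℕ) {x : ℝ} (hx : 1 ≤ x * (j + 2)) : cut j x = 1 := by
  have h0 : (0 : ℝ) ≤ j := j.cast_nonneg
  rw [cut, min_eq_left (by nlinarith), max_eq_right zero_le_one]

lemma heatFn_sq_le {t x : ℝ} (ht : 0 < t) (hx : x ≤ 1) (J : ℕ) :
    heatFn t x ^ 2 ≤ ∑ j ∈ Finset.range J, Real.exp (-(2 * t * j)) * cut j x ^ 2 +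
      Real.exp (-(2 * t * J)) * 1 := by
  have hs : ∀ j ∈ Finset.range J, 0 ≤ Real.exp (-(2 * t * j)) * cut j x ^ 2 := fun j _ => by
    positivity
  have hs' := Finset.sum_nonneg hs
  have hp := Real.exp_pos (-(2 * t * J))
  unfold heatFn
  split_ifs with h
  · nlinarith
  have hx0 : 0 < x := not_le.1 h
  have hy : 0 ≤ x⁻¹ - 1 := sub_nonneg.2 ((one_le_inv₀ hx0).2 hx)
  rw [← Real.exp_nat_mul]
  rcases le_or_gt (J : ℝ) (x⁻¹ - 1) with h1 | h1
  · have : Real.exp ((2 : ℕ) * (-t * (x⁻¹ - 1))) ≤ Real.exp (-(2 * t * J)) :=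
      Real.exp_le_exp.2 (by push_cast; nlinarith)
    linarith
  · have h2 := Nat.floor_le hy
    have h3 := Nat.lt_floor_add_one (x⁻¹ - 1)
    have h4 : ⌊x⁻¹ - 1⌋₊ ∈ Finset.range J := Finset.mem_range.2 ((Nat.floor_lt hy).2 h1)
    have h5 := Finset.single_le_sum hs h4
    set j := ⌊x⁻¹ - 1⌋₊
    have h6 : 1 ≤ x * (j + 2) := by
      have : x * x⁻¹ = 1 := mul_inv_cancel₀ hx0.ne'
      nlinarith
    rw [cut_eq_one j h6] at h5
    have : Real.exp ((2 : ℕ) * (-t * (x⁻¹ - 1))) ≤ Real.exp (-(2 * t * j)) :=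
      Real.exp_le_exp.2 (by push_cast; nlinarith)
    linarith

lemma qf_sum {T : H →L[ℂ] H} {g : ℕ → ℝ → ℝ} (hg : ∀ j, Continuous (g j)) (u : H) (J : ℕ) :
    qf T (fun x => ∑ j ∈ Finset.range J, g j x) u = ∑ j ∈ Finset.range J, qf T (g j) u := by
  induction J with
  | zero => simp [qf]
  | succ J ih =>
    simp only [Finset.sum_range_succ]
    rw [qf_add (by fun_prop) (hg J), ih]

variable {Γ : Submodule ℂ (H × K)} {Γ' : Submodule ℂ (H × K')}

lemma norm_heat_sq_le (hΓ : IsClosed (Γ : Set (H × K))) {t : ℝ} (ht : 0 < t) (u : H) (J : ℕ) :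
    ‖heat Γ t u‖ ^ 2 ≤
      ∑ j ∈ Finset.range J, Real.exp (-(2 * t * j)) * ‖cfc (cut j) (resolv Γ) u‖ ^ 2 +
        Real.exp (-(2 * t * J)) * ‖u‖ ^ 2 := by
  have hc := continuous_cut
  have hh := continuous_heatFn ht
  have h1 := qf_mono (T := resolv Γ) (φ := fun x => heatFn t x ^ 2)
    (ψ := fun x => ∑ j ∈ Finset.range J, Real.exp (-(2 * t * j)) * cut j x ^ 2 +
      Real.exp (-(2 * t * J)) * 1) (by fun_prop) (by fun_prop)
    (fun x hx => heatFn_sq_le ht (spectrum_resolv hΓ hx).2 J) u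
  rw [qf_add (by fun_prop) (by fun_prop), qf_sum (by fun_prop),
    qf_const_mul (φ := fun _ => 1) (by fun_prop), qf_one (resolv_sa hΓ), ← norm_cfc_sq hh] at h1
  refine h1.trans (le_of_eq ?_)
  congr 1
  refine Finset.sum_congr rfl fun j _ => ?_
  rw [qf_const_mul (φ := fun x => cut j x ^ 2) (by fun_prop), norm_cfc_sq (hc j)]

lemma enorm_heat_sq_le (hΓ : IsClosed (Γ : Set (H × K))) {t : ℝ} (ht : 0 < t) (u : H) :
    ‖heat Γ t u‖ₑ ^ 2 ≤
      ∑' j : ℕ, ENNReal.ofReal (Real.exp (-(2 * t * j))) * ‖cfc (cut j) (resolv Γ) u‖ₑ ^ 2 := by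
  have h1 : Tendsto (fun J : ℕ => Real.exp (-(2 * t * J))) atTop (𝓝 0) :=
    Real.tendsto_exp_neg_atTop_nhds_zero.comp
      (tendsto_natCast_atTop_atTop.const_mul_atTop (by positivity))
  have h2 := ENNReal.tendsto_ofReal ((h1.mul_const (‖u‖ ^ 2)).const_sub (‖heat Γ t u‖ ^ 2))
  rw [zero_mul, sub_zero, ← enorm_sq_eq] at h2
  refine le_of_tendsto' h2 fun J => le_trans ?_ (ENNReal.sum_le_tsum (Finset.range J))
  refine (ENNReal.ofReal_le_ofReal (sub_le_iff_le_add.2 (norm_heat_sq_le hΓ ht u J))).trans ?_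
  rw [ENNReal.ofReal_sum_of_nonneg fun j _ => by positivity]
  refine le_of_eq (Finset.sum_congr rfl fun j _ => ?_)
  rw [ENNReal.ofReal_mul (Real.exp_pos _).le, enorm_sq_eq]

lemma term_le {t : ℝ} (ht : 0 < t) (m j : ℕ) :
    Real.exp (-(2 * t * j)) * ((j : ℝ) + 3) ^ m ≤
      3 ^ m * m.factorial * Real.exp 1 * (1 + t⁻¹) ^ m * ((1 + t)⁻¹) ^ j := by
  have hj : (0 : ℝ) ≤ j := j.cast_nonneg
  have h1 : (j : ℝ) + 3 ≤ 3 * ((1 + t⁻¹) * (1 + t * j)) := by
    have e : (1 + t⁻¹) * (1 + t * j) = 1 + t * j + t⁻¹ + j := by field_simp; ring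
    have : 0 < t⁻¹ := inv_pos.2 ht
    rw [e]
    nlinarith [mul_nonneg ht.le hj]
  have h2 : (1 + t * j) ^ m ≤ m.factorial * (Real.exp 1 * Real.exp (t * j)) := by
    have := Real.pow_div_factorial_le_exp (x := 1 + t * j) (by positivity) m
    rwa [div_le_iff₀' (by positivity), Real.exp_add] at this
  have h3 : Real.exp (-(t * j)) ≤ ((1 + t)⁻¹) ^ j := by
    rw [show -(t * j) = j * (-t) by ring, Real.exp_nat_mul, Real.exp_neg]
    gcongr
    linarith [Real.add_one_le_exp t]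
  have h4 : Real.exp (-(2 * t * j)) * Real.exp (t * j) = Real.exp (-(t * j)) := by
    rw [← Real.exp_add]; ring_nf
  calc Real.exp (-(2 * t * j)) * ((j : ℝ) + 3) ^ m
      ≤ Real.exp (-(2 * t * j)) * (3 * ((1 + t⁻¹) * (1 + t * j))) ^ m := by gcongr
    _ = Real.exp (-(2 * t * j)) * (3 ^ m * (1 + t⁻¹) ^ m * (1 + t * j) ^ m) := by
      rw [mul_pow, mul_pow]; ring
    _ ≤ Real.exp (-(2 * t * j)) * (3 ^ m * (1 + t⁻¹) ^ m *
        (m.factorial * (Real.exp 1 * Real.exp (t * j)))) := by gcongr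
    _ = 3 ^ m * m.factorial * Real.exp 1 * (1 + t⁻¹) ^ m *
        (Real.exp (-(2 * t * j)) * Real.exp (t * j)) := by ring
    _ ≤ _ := by rw [h4]; gcongr

lemma heat_of_ker (hΓ : IsClosed (Γ : Set (H × K))) {t : ℝ} (ht : 0 < t) {w : H}
    (hw : (w, (0 : K)) ∈ Γ) : heat Γ t w = w := by
  have hR := resolv_sa hΓ
  have hd : DifferentiableAt ℝ (heatFn t) 1 := by
    rw [funext (heatFn_eq ht)]
    exact (((expNegInvGlue.contDiff (n := 1)).differentiable one_ne_zero _).comp _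
      (differentiableAt_id.div_const t)).const_mul _
  have hg : Continuous (dslope (heatFn t) 1) := continuousOn_univ.1
    ((continuousOn_dslope univ_mem).2 ⟨(continuous_heatFn ht).continuousOn, hd⟩)
  have e : heatFn t = fun x => dslope (heatFn t) 1 x * (x - 1) + 1 := funext fun x => by
    have := sub_smul_dslope (heatFn t) 1 x
    rw [smul_eq_mul, heatFn_one] at this
    linarith
  have e1 : cfc (fun x : ℝ => x - 1) (resolv Γ) w = 0 := by
    rw [cfc_sub _ _ _ (continuousOn_id' _) continuousOn_const, cfc_id' ℝ (resolv Γ),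
      cfc_const_one ℝ (resolv Γ)]
    simp [resolv_of_ker hΓ hw]
  rw [heat, e, cfc_add _ _ _ (by fun_prop) continuousOn_const, cfc_const_one ℝ (resolv Γ),
    _root_.add_apply, ← cfc_cfc hg (by fun_prop), e1]
  simp

omit [CompleteSpace K] in
lemma inner_perp (hΓ : IsClosed (Γ : Set (H × K))) {z : H} (hz : (z, (0 : K)) ∈ Γ) (x : H) :
    ⟪z, (1 - kerProj Γ) x⟫_ℂ = 0 :=
  inner_eq_zero_symm.1 (inner_sub_kerProj hΓ hz x)

omit [CompleteSpace K] in
lemma inner_perp_symm (Γ : Submodule ℂ (H × K)) (x y : H) :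
    ⟪x, (1 - kerProj Γ) y⟫_ℂ = ⟪(1 - kerProj Γ) x, y⟫_ℂ := by
  simp only [_root_.sub_apply, one_apply_eq_self, inner_sub_left,
    inner_sub_right, kerProj, Submodule.inner_starProjection_left_eq_right]

omit [CompleteSpace K] in
lemma perp_mem (hΓ : IsClosed (Γ : Set (H × K))) {x : H} {a : K} (h : (x, a) ∈ Γ) :
    ((1 - kerProj Γ) x, a) ∈ Γ := by
  simpa using Γ.sub_mem h (kerProj_mem hΓ x)

omit [CompleteSpace H] [CompleteSpace K] [CompleteSpace K'] in
lemma isClosed_pairGraph (hΓ : IsClosed (Γ : Set (H × K))) (hΓ' : IsClosed (Γ' : Set (H × K'))) :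
    IsClosed (pairGraph Γ Γ' : Set (H × WithLp 2 (K × K'))) :=
  (hΓ.preimage (f := fun z : H × WithLp 2 (K × K') => (z.1, z.2.fst)) (by fun_prop)).inter
    (hΓ'.preimage (f := fun z : H × WithLp 2 (K × K') => (z.1, z.2.snd)) (by fun_prop))

end

theorem weyl : WeylStmt.{u, v} := by
  intro c hc m
  have hc0 : 0 < c := one_pos.trans_le hc
  refine ⟨4 * c * (2 * c) ^ m * (3 ^ m * m.factorial * Real.exp 1), by positivity, ?_⟩
  intro Q _ H K _ _ _ _ _ _ Γ U ι v hΓ hv hU hS t ht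
  have hband : ∀ j : ℕ, hs v (cfc (cut j) (resolv Γ)) ≤
      ENNReal.ofReal (4 * c * (2 * c) ^ m * ((j : ℝ) + 3) ^ m) := by
    intro j
    have hj : (0 : ℝ) ≤ j := j.cast_nonneg
    obtain ⟨S, hSe, hS1, hS2⟩ := hS (2 * c * (j + 3))⁻¹
      ⟨by positivity, inv_le_one_of_one_le₀ (by nlinarith)⟩
    have h1 : hs v (cfc (cut j) (resolv Γ)) ≤
        ENNReal.ofReal 4 * hs v (S ∘L cfc (cut j) (resolv Γ)) := by
      refine hs_le_of_forall v fun u => ?_
      obtain ⟨k, hk, hk2⟩ := band hΓ (continuous_cut j) (l := j + 2) (by positivity)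
        (fun x hx => cut_eq_zero j hx) u
      have h2 := hS2 _ _ hk
      rw [comp_apply]
      set x := cfc (cut j) (resolv Γ) u
      have hx := norm_nonneg x
      have h3 : ‖k‖ ≤ (j + 2) * ‖x‖ :=
        (abs_le_of_sq_le_sq' (by
          nlinarith [sq_nonneg ‖x‖, mul_nonneg hj (sq_nonneg ‖x‖), sq_nonneg (j * ‖x‖)])
          (by positivity)).2
      have h4 : c * (2 * c * (j + 3))⁻¹ * (‖x‖ + ‖k‖) ≤ ‖x‖ / 2 :=
        calc _ ≤ c * (2 * c * (j + 3))⁻¹ * ((j + 3) * ‖x‖) := by gcongr; linarith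
          _ = ‖x‖ / 2 := by field_simp
      have h5 : ‖x‖ ≤ 2 * ‖S x‖ := by linarith
      nlinarith
    have h2 := hs_comp_le hv hv (hU.cfc (cut j)) hSe
    have h3 : ‖cfc (cut j) (resolv Γ)‖ₑ ^ 2 ≤ 1 := by
      refine pow_le_one₀ (zero_le) ?_
      rw [← ofReal_norm, ENNReal.ofReal_le_one]
      exact norm_cfc_le_one fun x _ => abs_cut_le j x
    calc _ ≤ ENNReal.ofReal 4 * (1 * ENNReal.ofReal (c / (2 * c * (j + 3))⁻¹ ^ m)) :=
          h1.trans (mul_le_mul_right (h2.trans (mul_le_mul' h3 hS1)) _)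
      _ = _ := by
        rw [one_mul, ← ENNReal.ofReal_mul (by norm_num), inv_pow, div_inv_eq_mul, mul_pow]
        congr 1
        ring
  have hr0 : 0 ≤ (1 + t)⁻¹ := by positivity
  have hr1 : (1 + t)⁻¹ < 1 := inv_lt_one_of_one_lt₀ (by linarith)
  set D := 4 * c * (2 * c) ^ m * (3 ^ m * m.factorial * Real.exp 1) * (1 + t⁻¹) ^ m with hD
  have hD0 : 0 ≤ D := by positivity
  calc hs v (heat Γ t)
      ≤ ∑' i, ∑' j : ℕ, ENNReal.ofReal (Real.exp (-(2 * t * j))) *
          ‖cfc (cut j) (resolv Γ) (v i)‖ₑ ^ 2 :=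
        ENNReal.tsum_le_tsum fun i => enorm_heat_sq_le hΓ ht _
    _ = ∑' j : ℕ, ENNReal.ofReal (Real.exp (-(2 * t * j))) * hs v (cfc (cut j) (resolv Γ)) := by
        rw [ENNReal.tsum_comm]
        exact tsum_congr fun j => ENNReal.tsum_mul_left
    _ ≤ ∑' j : ℕ, ENNReal.ofReal (D * ((1 + t)⁻¹) ^ j) := by
        refine ENNReal.tsum_le_tsum fun j => (mul_le_mul_right (hband j) _).trans ?_
        rw [← ENNReal.ofReal_mul (Real.exp_pos _).le]
        refine ENNReal.ofReal_le_ofReal ?_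
        have := mul_le_mul_of_nonneg_left (term_le ht m j)
          (show 0 ≤ 4 * c * (2 * c) ^ m by positivity)
        rw [hD]
        linarith
    _ = _ := by
        rw [← ENNReal.ofReal_tsum_of_nonneg (fun j => by positivity)
          ((summable_geometric_of_lt_one hr0 hr1).mul_left D), tsum_mul_left,
          tsum_geometric_of_lt_one hr0 hr1, hD, pow_succ]
        congr 1
        have : (1 - (1 + t)⁻¹)⁻¹ = 1 + t⁻¹ := by
          refine inv_eq_of_mul_eq_one_right ?_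
          field_simp
          ring
        rw [this]
        ring

theorem split : SplitStmt.{u} := by
  intro H K K' _ _ _ _ _ _ _ _ _ Γ Γ' hΓ hΓ' h1
  have hP : ∀ x, ((1 - kerProj Γ) x, (0 : K')) ∈ Γ' := fun x =>
    h1 _ fun z hz => inner_perp hΓ hz x
  have h2 : ∀ x, (∀ z, (z, (0 : K')) ∈ Γ' → ⟪z, x⟫_ℂ = 0) → (x, (0 : K)) ∈ Γ := by
    intro x hx
    have e1 := hx _ (hP x)
    have e2 := inner_sub_kerProj hΓ (kerProj_mem hΓ x) x
    have e3 : ⟪x - kerProj Γ x, x - kerProj Γ x⟫_ℂ = 0 := by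
      rw [inner_sub_right, e2, sub_zero]
      exact e1
    rw [sub_eq_zero.1 (inner_self_eq_zero.1 e3)]
    exact kerProj_mem hΓ x
  have hP' : ∀ x, ((1 - kerProj Γ') x, (0 : K)) ∈ Γ := fun x =>
    h2 _ fun z hz => inner_perp hΓ' hz x
  have hcl := isClosed_pairGraph hΓ hΓ'
  have m1 : ∀ x a, (x, a) ∈ pairGraph Γ Γ' →
      ((1 - kerProj Γ) x, WithLp.toLp 2 (a.fst, 0)) ∈ pairGraph Γ Γ' := fun x a h =>
    ⟨perp_mem hΓ h.1, hP x⟩
  have m2 : ∀ x a, (x, a) ∈ pairGraph Γ Γ' →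
      ((1 - kerProj Γ') x, WithLp.toLp 2 (0, a.snd)) ∈ pairGraph Γ Γ' := fun x a h =>
    ⟨hP' x, perp_mem hΓ' h.2⟩
  have c1 : ∀ x, resolv (pairGraph Γ Γ') ((1 - kerProj Γ) x) =
      (1 - kerProj Γ) (resolv (pairGraph Γ Γ') x) := fun x =>
    (resolv_unique hcl (m1 _ _ (resolv_mem hcl x)) fun v a hv => by
      rw [← map_sub, inner_perp_symm, inner_resolv hcl (m1 _ _ hv)]
      simp [WithLp.prod_inner_apply]).1
  have c2 : ∀ x, resolv (pairGraph Γ Γ') ((1 - kerProj Γ') x) =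
      (1 - kerProj Γ') (resolv (pairGraph Γ Γ') x) := fun x =>
    (resolv_unique hcl (m2 _ _ (resolv_mem hcl x)) fun v a hv => by
      rw [← map_sub, inner_perp_symm, inner_resolv hcl (m2 _ _ hv)]
      simp [WithLp.prod_inner_apply]).1
  refine ⟨h2, c1, c2, fun t ht x => ?_⟩
  set w := x - ((1 - kerProj Γ) x + (1 - kerProj Γ') x) with hw
  have w1 : (w, (0 : K)) ∈ Γ := by
    have := Γ.sub_mem (kerProj_mem hΓ x) (hP' x)
    rw [Prod.mk_sub_mk, sub_zero] at this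
    convert this using 2
    simp only [hw, _root_.sub_apply, one_apply_eq_self]
    abel
  have w2 : (w, (0 : K')) ∈ Γ' := by
    have := Γ'.sub_mem (kerProj_mem hΓ' x) (hP x)
    rw [Prod.mk_sub_mk, sub_zero] at this
    convert this using 2
    simp only [hw, _root_.sub_apply, one_apply_eq_self]
    abel
  have w3 : (w, (0 : WithLp 2 (K × K'))) ∈ pairGraph Γ Γ' := ⟨w1, w2⟩
  have e1 : kerProj (pairGraph Γ Γ') x = w := by
    refine Submodule.eq_starProjection_of_mem_of_inner_eq_zero ((mem_kerClosure hcl _).2 w3)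
      fun z hz => ?_
    have hz' := (mem_kerClosure hcl _).1 hz
    rw [hw, sub_sub_cancel, inner_eq_zero_symm, inner_add_right, inner_perp hΓ hz'.1,
      inner_perp hΓ' hz'.2, add_zero]
  have d1 : heat (pairGraph Γ Γ') t ((1 - kerProj Γ) x) =
      (1 - kerProj Γ) (heat (pairGraph Γ Γ') t x) := cfc_comm_apply c1 _ x
  have d2 : heat (pairGraph Γ Γ') t ((1 - kerProj Γ') x) =
      (1 - kerProj Γ') (heat (pairGraph Γ Γ') t x) := cfc_comm_apply c2 _ x
  have e2 : heat (pairGraph Γ Γ') t x = w + (heat (pairGraph Γ Γ') t ((1 - kerProj Γ) x) +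
      heat (pairGraph Γ Γ') t ((1 - kerProj Γ') x)) := by
    rw [← map_add, ← heat_of_ker hcl ht w3, ← map_add, hw, sub_add_cancel]
  rw [e1]
  conv_lhs => rw [e2]
  rw [d1, d2, sq, norm_add_sq_eq_norm_sq_add_norm_sq_of_inner_eq_zero (𝕜 := ℂ),
    norm_add_sq_eq_norm_sq_add_norm_sq_of_inner_eq_zero (𝕜 := ℂ), sq, sq, sq]
  · exact inner_eq_zero_symm.1 (inner_perp hΓ (hP' _) _)
  · rw [inner_add_right, inner_perp hΓ w1, inner_perp hΓ' w2, add_zero]

end Pool.Agent.MP_d9582c_gt.H44
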